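import Pool.Agent.KS6_77.RR.Orbit
import Pool.Graph.R_seed8.R355.GenB

set_option autoImplicit false

/-!
# Q1 for the classes which are not positive on a rational boundary ray

Let `D₀ = 111 H - 36 E i - 35 ∑_{j ∈ T, j ≠ i} E j` for a set `T` of ten of `n ≥ 10` points and
`i ∈ T`; `D₀` is standard, integral, and `D₀ ^ 2 = 0`, `K D₀ = 18`. Let `D` be any class in the orbit of
`D₀` under the reflections in the classes `H - E a - E b - E c` (an infinite set of integral classes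
with `D ^ 2 = 0` on pairwise different rays). Let `(d; m)` be a class with `D (d; m) < 0`, or with
`D (d; m) ≤ 0`, `d > 0` and `n = 10` or `D = D₀`. Then `(d; m)` is EMPTY for general points:
`dim = edim = -1`, as the conjecture predicts, both at all points outside one hypersurface (for each
class) and at very general points (for all these classes together).

In particular all multiples `(111 k; 36 k, 35 k, …, 35 k)`, `k ≥ 1`, of the standard class `D₀` of
self-intersection zero and all their transforms are empty. In standard form the classes are those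
with `111 d ≤ 35 (m_1 + ⋯ + m_10) + m_1`, e.g. all `(d; m_1, …, m_10)` with `m_1 = 36 k`, `m_i = 35 k`
for `i = 2, …, 10` and `d ≤ 111 k`; Nagata's inequality `m_1 + ⋯ + m_10 < √10 d` does not exclude
them: `351 < 111 √10`.
-/

namespace Pool.Agent.Results.MP_6e81d8_ag.BelowRationalRays

open MvPolynomial Pool.Agent.R355.ConeAct Pool.Agent.KS6_77.RR Pool.Agent.TH167.SHDefs

/-- At generic points the system is zero. -/
theorem sys_bot {n : ℕ} {P : Fin n → Fin 2 → ℂ}
    (hP : AlgebraicIndependent ℚ (fun ij : Fin n × Fin 2 => P ij.1 ij.2)) {T : Finset (Fin n)}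
    (hT : T.card = 10) {i : Fin n} (hi : i ∈ T) {D : ℝ × (Fin n → ℝ)} (hD : Carries (ray T i) D)
    (d : ℕ) (m : Fin n → ℕ)
    (h : D.1 * d < ∑ l, D.2 l * m l ∨
      (0 < d ∧ (n = 10 ∨ D = ray T i) ∧ D.1 * d ≤ ∑ l, D.2 l * m l)) : sys P d m = ⊥ := by
  rw [Submodule.eq_bot_iff]
  intro F hF
  unfold sys at hF
  rw [Submodule.mem_inf, Submodule.restrictScalars_mem, Submodule.mem_iInf,
    mem_homogeneousSubmodule] at hF
  obtain ⟨hF1, hF2⟩ := hF
  by_contra hF0
  rcases Nat.eq_zero_or_pos d with h0 | h0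
  · rcases h with h | ⟨h, -⟩
    · have hm : ∀ l, m l = 0 := by
        intro l
        have h1 := Pool.Agent.TH167.SH.van_le hF0 hF1
          ((Pool.Agent.W609.CR.t_link ℂ (P l) (m l) F d hF1).2 (hF2 l))
        omega
      rw [h0, Finset.sum_eq_zero fun l _ => by rw [hm l, Nat.cast_zero, mul_zero]] at h
      simp at h
    · omega
  · obtain ⟨h1, h2⟩ := orbit_form hP hT hi hD hF0 h0 hF1 hF2
    rcases h with h | ⟨-, h3, h⟩
    · exact absurd h1 (not_le.2 h)
    · exact absurd (h2 h3) (not_lt.2 h)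

theorem dims {n : ℕ} {P : Fin n → Fin 2 → ℂ} {d : ℕ} {m : Fin n → ℕ} (h : sys P d m = ⊥) :
    dimL P d m = -1 ∧ dimL P d m = max (virtdim d m) (-1) := by
  have h1 : dimL P d m = -1 := by
    unfold dimL
    rw [h, finrank_bot]
    norm_num
  refine ⟨h1, ?_⟩
  have h2 := Pool.Agent.TH167.SH.chi_le_dim P d m
  have h3 := Pool.Agent.TH167.SH.virtdim_eq d m
  have h4 := Pool.Agent.TH167.SH.dimL_eq P d m
  rw [h1] at h4 ⊢
  omega

theorem result (n : ℕ) (hn : 10 ≤ n) :
    -- (1) the orbits are infinite sets of integral classes of self-intersection zero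
    (∀ (T : Finset (Fin n)) (i : Fin n), T.card = 10 → i ∈ T →
      (∀ M : ℝ, ∃ D, Carries (ray T i) D ∧ M ≤ D.1) ∧
      (∀ D D', Carries (ray T i) D → Carries (ray T i) D' → ∀ c : ℝ, D' = c • D → D' = D) ∧
      ∀ D, Carries (ray T i) D → IsInt D ∧ dot D D = 0 ∧ 0 < D.1 ∧ ∀ l, 0 ≤ D.2 l) ∧
    -- (2) emptiness outside a hypersurface
    (∀ (T : Finset (Fin n)) (i : Fin n), T.card = 10 → i ∈ T → ∀ D, Carries (ray T i) D →
      ∀ (d : ℕ) (m : Fin n → ℕ), (D.1 * d < ∑ l, D.2 l * m l ∨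
        (0 < d ∧ (n = 10 ∨ D = ray T i) ∧ D.1 * d ≤ ∑ l, D.2 l * m l)) →
      ∃ F : MvPolynomial (Fin n × Fin 2) ℂ, F ≠ 0 ∧ ∀ P : Fin n → Fin 2 → ℂ,
        eval (fun ij : Fin n × Fin 2 => P ij.1 ij.2) F ≠ 0 →
        dimL P d m = -1 ∧ dimL P d m = max (virtdim d m) (-1)) ∧
    -- (3) all these classes at once, at very general points
    ∃ f : ℕ → MvPolynomial (Fin n × Fin 2) ℂ, (∀ k, f k ≠ 0) ∧
      ∀ P : Fin n → Fin 2 → ℂ,
        (∀ k, MvPolynomial.eval (fun q : Fin n × Fin 2 => P q.1 q.2) (f k) ≠ 0) →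
        ∀ (T : Finset (Fin n)) (i : Fin n), T.card = 10 → i ∈ T → ∀ D, Carries (ray T i) D →
          ∀ (d : ℕ) (m : Fin n → ℕ), (D.1 * d < ∑ l, D.2 l * m l ∨
            (0 < d ∧ (n = 10 ∨ D = ray T i) ∧ D.1 * d ≤ ∑ l, D.2 l * m l)) →
          sys P d m = ⊥ ∧ dimL P d m = -1 ∧ dimL P d m = max (virtdim d m) (-1) := by
  classical
  obtain ⟨f, hf, h⟩ := Pool.Agent.TH167.SH.exists_fam (Fin n × Fin 2)
  have hgen : ∀ (d : ℕ) (m : Fin n → ℕ), (∀ P : Fin n → Fin 2 → ℂ,
      AlgebraicIndependent ℚ (fun ij : Fin n × Fin 2 => P ij.1 ij.2) → sys P d m = ⊥) →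
      ∃ F : MvPolynomial (Fin n × Fin 2) ℂ, F ≠ 0 ∧ ∀ P : Fin n → Fin 2 → ℂ,
        eval (fun ij : Fin n × Fin 2 => P ij.1 ij.2) F ≠ 0 →
        dimL P d m = -1 ∧ dimL P d m = max (virtdim d m) (-1) := by
    intro d m h1
    have h2 := (Pool.Agent.R355.Gen.gen_iff d m 0).2 fun P hP => by
      rw [h1 P hP, finrank_bot]
      rfl
    obtain ⟨F, hF, h3⟩ := h2
    refine ⟨F, hF, fun P hP => dims ?_⟩
    have h4 := h3 P hP
    have h5 : Module.finrank ℂ ↥(sys P d m) = 0 := by exact_mod_cast h4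
    have : FiniteDimensional ℂ ↥(sys P d m) := by
      rw [Pool.Agent.TH167.SH.sys_eq]
      exact Pool.Agent.W609.CR.vs_fin _ _ _
    exact Submodule.finrank_eq_zero.1 h5
  -- a generic tuple of points
  have hex : ∃ P : Fin n → Fin 2 → ℂ,
      AlgebraicIndependent ℚ (fun ij : Fin n × Fin 2 => P ij.1 ij.2) := by
    obtain ⟨g, hg⟩ := Pool.Agent.R355.Round.exists_indep (Fin n × Fin 2)
    exact ⟨fun i j => g (i, j), hg⟩
  obtain ⟨P0, hP0⟩ := hex
  refine ⟨fun T i hT hi => ⟨fun M => ?_, fun D D' hD hD' c hc => ?_, fun D hD => ?_⟩,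
    fun T i hT hi D hD d m hdm => ?_, f, hf, fun P hP1 T i hT hi D hD d m hdm => ?_⟩
  · exact exists_large hn (by show (0 : ℝ) < 111; norm_num) (ray_self hT hi).ge M
  · have k1 := (orbit_curve hP0 hT hi hD).2.2.1
    have k2 := (orbit_curve hP0 hT hi hD').2.2.1
    have k3 : kap D' = c * kap D := by
      rw [hc]
      exact kap_smul c D
    rw [k1, k2] at k3
    have k5 : c = 1 := by linarith
    rw [hc, k5, one_smul]
  · obtain ⟨h1, h2, -, -⟩ := orbit_curve hP0 hT hi hD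
    exact ⟨h1, h2, orbit_deg hP0 hT hi hD, fun l => (orbit_coeff hP0 hT hi hD l).1⟩
  · exact hgen d m fun P hP => sys_bot hP hT hi hD d m hdm
  · have h1 := sys_bot ((h _).1 hP1) hT hi hD d m hdm
    exact ⟨h1, dims h1⟩

end Pool.Agent.Results.MP_6e81d8_ag.BelowRationalRays
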